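import Pool.Agent.Results.MP_6e1a06_nt.BackwardOrbits
import Pool.Agent.Y152.RP.FamM

/-!
# MP_a325a5_ag: Zilber-Pink in the mixed Shimura varieties `Y_1 × … × Y_n × G_m^k` for all but finitely
many members of one-parameter families with parameters in a backward orbit

The Shimura variety `Y(1)^n` is identified with `ℂ^n` by the elliptic modular function
`jj = j = E₄³ / Δ`. The ambient variety is `Y(1)^n × G_m^k`, with coordinates indexed by
`Fin n ⊕ Fin k`, or more generally a product of modular curves of any levels (finite over `Y(1)^n`)
and a torus; for `n = 0` it is a torus, for `k = 0` a pure Shimura variety.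

**Families** (as in the starting file `MP_defd1c_ag.DivisionGroupParameters`). Let `K ⊂ ℂ` be a countable
field. We consider algebraic families `X_t` of subsets of `Y(1)^n × G_m^k` with one parameter `t`,
given by
* a family `B_t ⊆ P^N` of projective algebraic sets, defined by forms `G` with coefficients in
  `K[t]`,
* quotients `f_i = A_i / B_i` of forms of the same degree `d_i` with coefficients in `K[t]`, one for
  every coordinate,
* functions `s_i` integral over `K[j]`, `R_i (s_i, j) = 0` with `R_i` monic in the first variable
  (level one: `R_i = S - J`, `s_i = j`; in general modular functions of any level without poles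
  in the upper half plane), and polynomials `c_i ∈ K[t]`;
`X_t` (`scaledImage`) is the set of all `(x, u)` such that for some `y ∈ B_t` and some `s` we have
`R_i (s_i, x_i) = 0`, `c_i (t) s_i = A_i (y) / B_i (y)` for the modular coordinates, and
`c_j (t) u_j = A_j (y) / B_j (y)` for the torus coordinates.

**Parameters** (as in the starting file `MP_6e1a06_nt.BackwardOrbits`). Let `φ_1, …, φ_r` and `g` be
polynomials with integral coefficients such that all the composites `g ∘ φ_{i_1} ∘ … ∘ φ_{i_m}` are
irreducible, and `deg g · deg φ_i ≥ 2` for all `i`. The backward orbit of the roots of `g` is the set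
of the complex numbers `t` with `g (φ_{i_1} (… (φ_{i_m} (t)))) = 0` for some word `i_1 … i_m`
(`InBackwardOrbit`); for `r = 1` and `g = X - β` these are the iterated preimages of `β` under a
polynomial map. These are algebraic numbers of unbounded degree and (for `deg φ_i ≥ 2`) of bounded
height. A rational number `α` is called wandering if for every `y` there are only finitely many words
with `φ_{i_1} (… (φ_{i_m} (α))) = y` (for `r = 1`: `α` is not preperiodic).

The family degenerates at the wandering rational values `t = α_1, …, α_M` of the parameter in the
following sense:
* no point of `B_{α_l}` lies on `m + 1` of the divisors of the `f_i` (at `t = α_l`), and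
* the `c_i` have zeros at `α_l`, of orders `e_{l i} > 0`, and these orders are independent:
  for the modular coordinates `q e_{l i} e_{l j} e_{l' i} e_{l' j}` is not a square for `l ≠ l'`,
  `i ≠ j`, `1 ≤ q ≤ T^8`, where `T` bounds the degrees of the `R_i` (`T = 1` for level one), and for
  the torus coordinates any `k` of the vectors `(e_{l j})_j` are linearly independent.

**Theorem.** If `M ≥ n (n - 1) / 2 + k 2^k + 1` then for all but finitely many `t` in the backward orbit
the set `X_t` has no atypical intersection with the products `Z × C`, `Z` a special subvariety of
`Y(1)^n` and `C` a torsion coset: every irreducible subset of `X_t ∩ (Z × C)`, closed in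
`ℂ^n × (ℂ^×)^k`, has dimension at most `dim Z + dim C + m - (n + k)`, and the same bound holds for
the transcendence degrees of the points of `X_t ∩ (Z × C)` over `K`. The constant
coordinates of `Z` can be special points or integral over `ℤ[Γ]`, for any given finite subset `Γ` of
`K`, and `C` can be any coset of an algebraic subgroup by a point `η` such that the `η_j` and
`1 / η_j` are integral over `ℤ[Γ]`.

The starting file `DivisionGroupParameters` has parameters of bounded degree, radicals and roots of
unity. For backward orbits the starting library has curves in `Y(1)^n` only (`MP_6e1a06_nt`). The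
theorem `FewMembersAlgebraicParameters` of this problem has fewer degenerate members, but under the
independence modulo squares of the products of the orders over all systems of even sets of
coordinates; here the condition is on two coordinates and two degenerate members at a time.

The proof combines the theorem on families `Pool.Agent.Y152.RP.FamM.family` of the starting library with
the arithmetic of `Pool.Agent.V1138.BO` (also of the starting library): if `α` is wandering then for all
but finitely many words the value at `α` of the minimal polynomial `g ∘ φ_{i_1} ∘ … ∘ φ_{i_m}` of the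
parameter has a prime factor larger than a given number.
-/

set_option autoImplicit false

namespace Pool.Agent.Results.MP_a325a5_ag.BackwardOrbits

open MvPolynomial
open Pool.Agent.Y152.RP.FamM (SpecialVariety NoAtypical InGeneralPosition scaledImage
  IndependentExponents)
open Pool.Agent.Results.MP_6e1a06_nt.BackwardOrbits (InBackwardOrbit IrreducibleComposites
  Wandering)

/-- One-parameter families which degenerate at sufficiently many wandering rational parameters, with
orders independent in pairs: all but finitely many of the members with parameters in the backward
orbit have no atypical intersection. -/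
theorem result (K : Subfield ℂ) [Countable K] (κ : Type) [Finite κ] (N n k m M T : ℕ)
    (G : κ → MvPolynomial (Fin (N + 1)) (Polynomial K)) (hG : ∀ a, ∃ e, (G a).IsHomogeneous e)
    (A B : Fin n ⊕ Fin k → MvPolynomial (Fin (N + 1)) (Polynomial K)) (δ : Fin n ⊕ Fin k → ℕ)
    (hA : ∀ i, (A i).IsHomogeneous (δ i)) (hB : ∀ i, (B i).IsHomogeneous (δ i))
    (R : Fin n → Polynomial (Polynomial K)) (hR : ∀ i, (R i).Monic)
    (hT : ∀ i u w, ((R i).coeff u).coeff w ≠ 0 → u ≤ T ∧ w ≤ T)
    (c : Fin n ⊕ Fin k → Polynomial K) (α : Fin M → ℚ)
    (hind : IndependentExponents T fun l i => (c i).rootMultiplicity ((α l : ℚ) : K))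
    (hpos : ∀ l, InGeneralPosition ((α l : ℚ) : ℂ) m G A B) (Γ : Finset ℂ)
    (hΓ : ∀ γ ∈ Γ, γ ∈ K) (hM : n.choose 2 + k * 2 ^ k + 1 ≤ M)
    (r : ℕ) (φ : Fin r → Polynomial ℤ) (g : Polynomial ℤ) (hφ : IrreducibleComposites φ g)
    (hα : ∀ l, Wandering φ (α l)) :
    {t : ℂ | InBackwardOrbit φ g t ∧ ¬ NoAtypical
      (algebraMap (Algebra.adjoin ℤ (Γ : Set ℂ)) ℂ) K m (scaledImage t G A B R c)}.Finite :=
  Pool.Agent.Y152.RP.FamM.family K κ N n k m M T G hG A B δ hA hB R hR hT c α hind
    hpos Γ hΓ {t | InBackwardOrbit φ g t}
    (fun t ht => Pool.Agent.V1138.BO.alg_of_backward φ g hφ.1 t ht) hM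
    fun D => Pool.Agent.V1138.BO.finite_badB D hM α φ g hφ.2 hφ.1 hα

end Pool.Agent.Results.MP_a325a5_ag.BackwardOrbits
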