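import Pool.Agent.Run7.h383.MO.Ring

/-!
# MP_a325a5_ag: Zilber-Pink in the mixed Shimura varieties `Y_1 × … × Y_n × G_m^k` for families with few
degenerate members: parameters in finitely generated fields, rings and groups, and in orbits of
rational functions

The Shimura variety `Y(1)^n` is identified with `ℂ^n` by the elliptic modular function
`jj = j = E₄³ / Δ`. The ambient variety is `Y(1)^n × G_m^k`, with coordinates indexed by
`Fin n ⊕ Fin k`, or more generally a product of modular curves of any levels (finite over `Y(1)^n`)
and a torus; for `n = 0` it is a torus, for `k = 0` a pure Shimura variety.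

**Families** (as in the starting file `FinitelyGeneratedFields`). Let `K ⊂ ℂ` be a countable field. We
consider algebraic families `X_t` of subsets of `Y(1)^n × G_m^k` with one parameter `t`, given by
* a family `B_t ⊆ P^N` of projective algebraic sets, defined by forms `G` with coefficients in
  `K[t]`,
* quotients `f_i = A_i / B_i` of forms of the same degree `d_i` with coefficients in `K[t]`, one for
  every coordinate,
* functions `s_i` integral over `K[j]`, `R_i (s_i, j) = 0` with `R_i` monic in the first variable
  (level one: `R_i = S - J`, `s_i = j`; in general modular functions of any level without poles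
  in the upper half plane), and polynomials `c_i ∈ K[t]`;
`X_t` (`scaledImage`) is the set of all `(x, u)` such that for some `y ∈ B_t` and some `s` we have
`R_i (s_i, x_i) = 0`, `c_i (t) s_i = A_i (y) / B_i (y)` for the modular coordinates, and
`c_j (t) u_j = A_j (y) / B_j (y)` for the torus coordinates.

Let `D_1, …, D_M` be finite sets of complex numbers algebraic over `K`. The family degenerates at
the elements of the `D_l` in the following sense: for all `α` in `D_l`
* no point of `B_α` lies on `m + 1` of the divisors of the `f_i` (at `t = α`), and
* the `c_i` have zeros at `α`, of orders `e_i (α) > 0`, and these orders are independent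
  (`Independent`). Let `L₁ = min (m + 1, n - 1)`. For the modular coordinates: if `A_0, …, A_{L₁}` are
  sets of modular coordinates with an even number of elements, not all empty, and every coordinate is
  in an even number of them, then `q ∏_l ∏_{i ∈ A_l} e_i (α_l)` is not a square, for `α_l` in
  `L₁ + 1` different sets `D_{f(l)}`. Here `q` is any positive integer which is at most
  `T ^ (2 ∑ |A_l|)` and has no prime factor larger than `T`, where `T` bounds the degrees of the
  `R_i` (`T = 1` and `q = 1` for level one; for instance the `e_i (α)` can be different primes larger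
  than `T`, different for the different sets `D_l`). For the torus coordinates: the vectors
  `(e_j (α_l))_j` are linearly independent if `α_l` is in `D_l` for `k` of the `l`.

**Parameters.** Let `φ_i = P_i / Q_i` (`i = 1, …, r`) be rational functions over `K` (`Maps`), which
act on the projective line. For a word `w = i_1 … i_m` the number `t` is the value of
`φ_{i_1} ∘ … ∘ φ_{i_m}` at `s` (`Value`); the intermediate values may be infinite.

**Theorem.** Let `L = L₁ + L₂`, `L₁ = min (m + 1, n - 1)`, `L₂ = (k - 1) ∑_{i ≤ m} C(k, i)`. Say that a set
`I` of indices `l` is large if it has at least `M - L` elements (every nonempty set is large if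
`M = L + 1`). A member `X_t` of the family is called good if it has no atypical intersection with the
products `Z × C`, `Z` a special subvariety of `Y(1)^n` and `C` a torsion coset (`NoAtypical`).

1. (Fields and orbits.) Suppose that, for some `m₀ ≥ 0`, every composite `ψ` of `m₀` of the functions
   `φ_i` and every large set `I`, the elements of the `D_l`, `l ∈ I`, have altogether at least three
   finite preimages under `ψ`. Then for every finitely generated field `E` of numbers algebraic over
   `K`, all but finitely many of the `X_t` are good for all the values `t` at the numbers `s ∈ E` of all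
   the composites of at least `m₀` of the functions `φ_i`. So for every `t₀` algebraic over `K` all but
   finitely many of the `X_t` with `t` in the forward orbit of `t₀` under the semigroup generated by
   the `φ_i` are good. For `m₀ = 0` the condition says that the union of the `D_l`, `l ∈ I`, has at least
   three elements, for all large `I`, and the conclusion is true for all but finitely many `t ∈ E`.
2. (Iteration of one function.) For one rational function `φ = P / Q` of degree at least two, `P` and
   `Q` coprime, the condition in 1. holds for some `m₀` if in every large set `I` there is an `l` and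
   an element of `D_l` with infinite backward orbit. (At most two numbers have finite backward
   orbits.)
3. (Images of finitely generated groups.) Let `ψ` be a composite of functions `φ_i` under which the
   elements of the `D_l` have finitely many preimages, and suppose that for every large `I` some
   element of some `D_l`, `l ∈ I`, has a preimage different from `0`. Then for every finitely
   generated group `U` of nonzero numbers algebraic over `K` the member with parameter `ψ (u)` is
   good for all but finitely many `u ∈ U`.
4. (Images of finitely generated rings.) Let `ψ` be a composite of functions `φ_i` such that for every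
   large `I` the elements of the `D_l`, `l ∈ I`, have altogether at least two (and finitely many)
   preimages. Then for every finitely generated ring `Λ` of numbers algebraic over `K` the member with
   parameter `ψ (s)` is good for all but finitely many `s ∈ Λ`.

Good means: every irreducible subset of `X_t ∩ (Z × C)`, closed in `ℂ^n × (ℂ^×)^k`, has dimension at
most `dim Z + dim C + m - (n + k)`, and the same bound holds for the transcendence degrees of the
points of `X_t ∩ (Z × C)` over `K`. The constant coordinates of `Z` can be special points or integral
over the ring generated by any given finite set `Γ` of numbers algebraic over `K`, and `C` can be any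
coset of an algebraic subgroup by a point `η` such that the `η_j` and `1 / η_j` are integral over this
ring.

The starting file `FinitelyGeneratedFields` has 1. for `m₀ = 0` and 4. for `ψ = id` with
`n (n - 1) / 2 + k 2^k` in place of `L`. For `k = 0` (pure Shimura varieties) `L ≤ m + 1` is independent
of `n`, and for `n = 0` it grows like `k^(m+1)` instead of `k 2^k`. The condition on the orders of the
modular coordinates is more restrictive than in the starting file for the same sets `D_l`.

**Proof.** The theorem on families `Pool.Agent.R424.FD.family` of the starting library (which had not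
been handed in) is applied to the pull-back of the family by a rational function `ψ`. It degenerates
at the preimages of the elements of the `D_l`; the orders are multiplied by the ramification indices,
which occur with even exponents in the products of the orders, so the orders of the pull-back are
independent. All but finitely many elements `t` of the orbits in 1. are of the form `ψ(s)` with a
composite `ψ` of `m₀` functions and `s` in a finitely generated field. If a point has infinite backward
orbit under a rational function of degree at least two, then the numbers of its preimages under the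
iterates are unbounded, since only finitely many points have only one preimage.
-/

set_option autoImplicit false

namespace Pool.Agent.Results.MP_a325a5_ag.FewDegenerateMembers

open MvPolynomial
open Pool.Agent.Y152.RP.FamM (SpecialVariety NoAtypical InGeneralPosition scaledImage)
open Pool.Agent.R424.FD (Independent L1 L2)
open Run7.h383.MO (Maps Value)

/-- Families with few degenerate members: all but finitely many of the members with parameters in
finitely generated fields, rings and groups, in their images under rational functions, and in orbits
under semigroups of rational functions have no atypical intersection. -/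
theorem result (K : Subfield ℂ) [Countable K] (κ : Type) [Finite κ] (N n k m M T : ℕ)
    (G : κ → MvPolynomial (Fin (N + 1)) (Polynomial K)) (hG : ∀ a, ∃ e, (G a).IsHomogeneous e)
    (A B : Fin n ⊕ Fin k → MvPolynomial (Fin (N + 1)) (Polynomial K)) (δ : Fin n ⊕ Fin k → ℕ)
    (hA : ∀ i, (A i).IsHomogeneous (δ i)) (hB : ∀ i, (B i).IsHomogeneous (δ i))
    (R : Fin n → Polynomial (Polynomial K)) (hR : ∀ i, (R i).Monic)
    (hT : ∀ i u w, ((R i).coeff u).coeff w ≠ 0 → u ≤ T ∧ w ≤ T)
    (c : Fin n ⊕ Fin k → Polynomial K) (D : Fin M → Finset ℂ)
    (hD : ∀ l, ∀ α ∈ D l, IsAlgebraic K α)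
    (hind : Independent m T c D) (hpos : ∀ l, ∀ α ∈ D l, InGeneralPosition α m G A B)
    (Γ : Finset ℂ) (hΓ : ∀ γ ∈ Γ, IsAlgebraic K γ) :
    (∀ (r : ℕ) (Φ : Maps K r) (m₀ : ℕ),
      (∀ w : List (Fin r), w.length = m₀ → ∀ I : Finset (Fin M),
        M ≤ I.card + (L1 n m + L2 k m) →
        3 ≤ {s : ℂ | ∃ l ∈ I, ∃ α ∈ D l, Value Φ w s α}.ncard) →
      (∀ t₀ : ℂ, IsAlgebraic K t₀ → {t : ℂ | (∃ w, Value Φ w t₀ t) ∧
        ¬ NoAtypical (algebraMap (Algebra.adjoin ℤ (Γ : Set ℂ)) ℂ) K m
          (scaledImage t G A B R c)}.Finite) ∧
      ∀ F : Finset ℂ, (∀ z ∈ F, IsAlgebraic K z) →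
        {t : ℂ | (∃ s ∈ Subfield.closure (F : Set ℂ), ∃ w : List (Fin r), m₀ ≤ w.length ∧
          Value Φ w s t) ∧
          ¬ NoAtypical (algebraMap (Algebra.adjoin ℤ (Γ : Set ℂ)) ℂ) K m
            (scaledImage t G A B R c)}.Finite) ∧
    (∀ Φ : Maps K 1, IsCoprime (Φ.P 0) (Φ.Q 0) → 2 ≤ Φ.e 0 →
      ((Φ.P 0).natDegree = Φ.e 0 ∨ (Φ.Q 0).natDegree = Φ.e 0) →
      (∀ I : Finset (Fin M), M ≤ I.card + (L1 n m + L2 k m) →
        ∃ l ∈ I, ∃ α ∈ D l, {s : ℂ | ∃ w, Value Φ w s α}.Infinite) →
      (∀ t₀ : ℂ, IsAlgebraic K t₀ → {t : ℂ | (∃ w, Value Φ w t₀ t) ∧
        ¬ NoAtypical (algebraMap (Algebra.adjoin ℤ (Γ : Set ℂ)) ℂ) K m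
          (scaledImage t G A B R c)}.Finite) ∧
      ∃ m₀ : ℕ, ∀ F : Finset ℂ, (∀ z ∈ F, IsAlgebraic K z) →
        {t : ℂ | (∃ s ∈ Subfield.closure (F : Set ℂ), ∃ w : List (Fin 1), m₀ ≤ w.length ∧
          Value Φ w s t) ∧
          ¬ NoAtypical (algebraMap (Algebra.adjoin ℤ (Γ : Set ℂ)) ℂ) K m
            (scaledImage t G A B R c)}.Finite) ∧
    (∀ (r : ℕ) (Φ : Maps K r) (w : List (Fin r)),
      {s : ℂ | ∃ l, ∃ α ∈ D l, Value Φ w s α}.Finite →
      (∀ I : Finset (Fin M), M ≤ I.card + (L1 n m + L2 k m) →
        ∃ l ∈ I, ∃ α ∈ D l, ∃ s, s ≠ 0 ∧ Value Φ w s α) →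
      ∀ U : Finset ℂˣ, (∀ u ∈ U, IsAlgebraic K (u : ℂ)) →
        {u : ℂˣ | u ∈ Subgroup.closure (U : Set ℂˣ) ∧ ∃ t : ℂ, Value Φ w (u : ℂ) t ∧
          ¬ NoAtypical (algebraMap (Algebra.adjoin ℤ (Γ : Set ℂ)) ℂ) K m
            (scaledImage t G A B R c)}.Finite) ∧
    ∀ (r : ℕ) (Φ : Maps K r) (w : List (Fin r)),
      (∀ I : Finset (Fin M), M ≤ I.card + (L1 n m + L2 k m) →
        2 ≤ {s : ℂ | ∃ l ∈ I, ∃ α ∈ D l, Value Φ w s α}.ncard) →
      ∀ F : Finset ℂ, (∀ z ∈ F, IsAlgebraic K z) →
        {s : ℂ | s ∈ Subring.closure (F : Set ℂ) ∧ ∃ t : ℂ, Value Φ w s t ∧
          ¬ NoAtypical (algebraMap (Algebra.adjoin ℤ (Γ : Set ℂ)) ℂ) K m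
            (scaledImage t G A B R c)}.Finite := by
  have key := fun (F : Finset ℂ) (hF : ∀ z ∈ F, IsAlgebraic K z) (P Q : Polynomial K)
    (hPQ : Pool.Agent.R424.MX.NonConst P Q) =>
    Run7.h383.MO.pulledE K κ N n k m M T G hG A B δ hA hB R hR hT c D hD
      hind hpos Γ hΓ F hF P Q hPQ
  obtain ⟨h1, h2, h3⟩ := Run7.h383.MO.conclusions (K := K) (L := L1 n m + L2 k m) (D := D)
    (Bad := fun t => ¬ NoAtypical (algebraMap (Algebra.adjoin ℤ (Γ : Set ℂ)) ℂ) K m
      (scaledImage t G A B R c)) fun F hF P Q hPQ =>
        ⟨(key F hF P Q hPQ).1, (key F hF P Q hPQ).2.2⟩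
  refine ⟨h1, h2, h3, fun r Φ w hw F hF => ?_⟩
  exact Run7.h383.MO.ring_abs (K := K) (L := L1 n m + L2 k m) (D := D)
    (Bad := fun t => ¬ NoAtypical (algebraMap (Algebra.adjoin ℤ (Γ : Set ℂ)) ℂ) K m
      (scaledImage t G A B R c)) (fun F hF P Q hPQ => (key F hF P Q hPQ).2.1) F hF Φ w hw

end Pool.Agent.Results.MP_a325a5_ag.FewDegenerateMembers
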