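import Pool.Agent.Run7.h383.MO.FamE
import Pool.Agent.Y152.RP.Main
import Pool.Agent.Results.MP_6e1a06_nt.BackwardOrbits

/-!
# MP_a325a5_ag: Zilber-Pink in the mixed Shimura varieties `Y_1 × … × Y_n × G_m^k` for families with few
degenerate members: parameters of bounded degree, radical parameters, roots of unity, and backward
orbits

The Shimura variety `Y(1)^n` is identified with `ℂ^n` by the elliptic modular function
`jj = j = E₄³ / Δ`. The ambient variety is `Y(1)^n × G_m^k`, with coordinates indexed by
`Fin n ⊕ Fin k`, or more generally a product of modular curves of any levels (finite over `Y(1)^n`)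
and a torus; for `n = 0` it is a torus, for `k = 0` a pure Shimura variety.

**Families** (as in the starting file `MP_defd1c_ag.DivisionGroupParameters`). Let `K ⊂ ℂ` be a countable
field. We consider algebraic families `X_t` of subsets of `Y(1)^n × G_m^k` with one parameter `t`,
given by
* a family `B_t ⊆ P^N` of projective algebraic sets, defined by forms `G` with coefficients in
  `K[t]`,
* quotients `f_i = A_i / B_i` of forms of the same degree `d_i` with coefficients in `K[t]`, one for
  every coordinate,
* functions `s_i` integral over `K[j]`, `R_i (s_i, j) = 0` with `R_i` monic in the first variable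
  (level one: `R_i = S - J`, `s_i = j`; in general modular functions of any level without poles
  in the upper half plane), and polynomials `c_i ∈ K[t]`;
`X_t` (`scaledImage`) is the set of all `(x, u)` such that for some `y ∈ B_t` and some `s` we have
`R_i (s_i, x_i) = 0`, `c_i (t) s_i = A_i (y) / B_i (y)` for the modular coordinates, and
`c_j (t) u_j = A_j (y) / B_j (y)` for the torus coordinates.

The family degenerates at the rational values `t = α_1, …, α_M` of the parameter in the
following sense:
* no point of `B_{α_l}` lies on `m + 1` of the divisors of the `f_i` (at `t = α_l`), and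
* the `c_i` have zeros at `α_l`, of orders `e_{l i} > 0`, and these orders are independent
  (`IndependentRat`). Let `L₁ = min (m + 1, n - 1)`. For the modular coordinates: if `A_0, …, A_{L₁}`
  are sets of modular coordinates with an even number of elements, not all empty, and every
  coordinate is in an even number of them, then `q ∏_l ∏_{i ∈ A_l} e_{f(l) i}` is not a square, for
  `L₁ + 1` different indices `f(l)`. Here `q` is any positive integer which is at most
  `T ^ (2 ∑ |A_l|)` and has no prime factor larger than `T`, where `T` bounds the degrees of the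
  `R_i` (`T = 1` and `q = 1` for level one; for instance the `e_{l i}` can be different primes larger
  than `T`). For the torus coordinates any `k` of the vectors `(e_{l j})_j` are linearly independent.

**Theorem.** Let `L = L₁ + L₂ + 1`, `L₁ = min (m + 1, n - 1)`, `L₂ = (k - 1) ∑_{i ≤ m} C(k, i)`. For all but
finitely many
1. algebraic numbers `t` of degree at most `d` over `ℚ`, if `M ≥ L + 2 d` and the `α_l` are distinct,
2. complex numbers `t` of which some power `t^N`, `N > 0`, is rational, if `M ≥ L + 2` and the `α_l`
   are nonzero and have distinct absolute values,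
3. roots of unity `t`, if `M ≥ L` and `|α_l| ≠ 0, 1` for all `l`,
4. numbers `t` in the backward orbit of the roots of `g` under the semigroup generated by `φ_1, …, φ_r`,
   that is, `g (φ_{i_1} (… (φ_{i_m} (t)))) = 0` for some word `i_1 … i_m`, if `M ≥ L` and the `α_l` are
   wandering; here `g` and the `φ_i` are any polynomials with integral coefficients such that all the
   composites `g ∘ φ_{i_1} ∘ … ∘ φ_{i_m}` are irreducible and `deg g · deg φ_i ≥ 2`, and `α` is wandering
   if each number is the value `φ_{i_1} (… (φ_{i_m} (α)))` for only finitely many words (for `r = 1`: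
   `α` is not preperiodic),
the set `X_t` has no atypical intersection with the products `Z × C`, `Z` a special subvariety of
`Y(1)^n` and `C` a torsion coset: every irreducible subset of `X_t ∩ (Z × C)`, closed in
`ℂ^n × (ℂ^×)^k`, has dimension at most `dim Z + dim C + m - (n + k)`, and the same bound holds for
the transcendence degrees of the points of `X_t ∩ (Z × C)` over `K`. The constant
coordinates of `Z` can be special points or integral over `ℤ[Γ]`, for any given finite subset `Γ` of
`K`, and `C` can be any coset of an algebraic subgroup by a point `η` such that the `η_j` and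
`1 / η_j` are integral over `ℤ[Γ]`.

In 2., 3. and 4. the degree of `t` is arbitrary. The starting file `DivisionGroupParameters` has 1., 2.
and 3. with `n (n - 1) / 2 + k 2^k + 1` in place of `L`, under another condition on the orders (the
independence modulo squares for two coordinates and two degenerate members at a time). For `k = 0`
the number `L ≤ m + 2` is independent of `n`. For curves in `Y(1)^n` (`k = 0`, `m = 1`) 4. is the
starting theorem `MP_6e1a06_nt.BackwardOrbits` (`M = 3`); 4. for all dimensions and for the mixed
case is new.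

**Proof.** The combinatorial core `Pool.Agent.R424.FD.coreME` of the starting library (linear algebra
over the field with two elements) at `L` places at which `t` is near to
different `α_l`; the places exist since the value at `α_l` of the minimal polynomial of `t` has a large
prime factor for at least `L` of the `l`, for all but finitely many `t` (`Pool.Agent.Y152.BD`,
`Pool.Agent.Y152.RP.Main`, `Pool.Agent.V1138.BO` of the starting library).
-/

set_option autoImplicit false

namespace Pool.Agent.Results.MP_a325a5_ag.FewMembersAlgebraicParameters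

open MvPolynomial
open Pool.Agent.Y152.RP.FamM (SpecialVariety NoAtypical InGeneralPosition scaledImage)
open Pool.Agent.R424.FD (L1 L2)
open Run7.h383.MO (IndependentRat)
open Pool.Agent.Results.MP_6e1a06_nt.BackwardOrbits (InBackwardOrbit IrreducibleComposites
  Wandering)

/-- `t` is algebraic over the rational numbers, of degree at most `d`. -/
def DegreeAtMost (d : ℕ) (t : ℂ) : Prop :=
  ∃ F : Polynomial ℤ, F ≠ 0 ∧ F.natDegree ≤ d ∧ Polynomial.aeval t F = 0

/-- Some power of `t` with positive exponent is a rational number. -/
def IsRadical (t : ℂ) : Prop := ∃ N : ℕ, 0 < N ∧ ∃ q : ℚ, t ^ N = (q : ℂ)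

/-- `t` is a root of unity. -/
def IsRootOfUnity (t : ℂ) : Prop := ∃ N : ℕ, 0 < N ∧ t ^ N = 1

/-- One-parameter families with few degenerate members at rational parameters: all but finitely many of
the members with parameters of bounded degree (radical parameters, roots of unity as parameters,
parameters in a backward orbit) have no atypical intersection. -/
theorem result (K : Subfield ℂ) [Countable K] (κ : Type) [Finite κ] (N n k m M T : ℕ)
    (G : κ → MvPolynomial (Fin (N + 1)) (Polynomial K)) (hG : ∀ a, ∃ e, (G a).IsHomogeneous e)
    (A B : Fin n ⊕ Fin k → MvPolynomial (Fin (N + 1)) (Polynomial K)) (δ : Fin n ⊕ Fin k → ℕ)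
    (hA : ∀ i, (A i).IsHomogeneous (δ i)) (hB : ∀ i, (B i).IsHomogeneous (δ i))
    (R : Fin n → Polynomial (Polynomial K)) (hR : ∀ i, (R i).Monic)
    (hT : ∀ i u w, ((R i).coeff u).coeff w ≠ 0 → u ≤ T ∧ w ≤ T)
    (c : Fin n ⊕ Fin k → Polynomial K) (α : Fin M → ℚ)
    (hind : IndependentRat m T fun l i => (c i).rootMultiplicity ((α l : ℚ) : K))
    (hpos : ∀ l, InGeneralPosition ((α l : ℚ) : ℂ) m G A B) (Γ : Finset ℂ)
    (hΓ : ∀ γ ∈ Γ, γ ∈ K) :
    (Function.Injective α → ∀ d : ℕ, L1 n m + L2 k m + 1 + 2 * d ≤ M →
      {t : ℂ | DegreeAtMost d t ∧ ¬ NoAtypical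
        (algebraMap (Algebra.adjoin ℤ (Γ : Set ℂ)) ℂ) K m (scaledImage t G A B R c)}.Finite) ∧
    ((∀ l, α l ≠ 0) → (∀ l l', l ≠ l' → |α l| ≠ |α l'|) →
      L1 n m + L2 k m + 1 + 2 ≤ M →
      {t : ℂ | IsRadical t ∧ ¬ NoAtypical
        (algebraMap (Algebra.adjoin ℤ (Γ : Set ℂ)) ℂ) K m (scaledImage t G A B R c)}.Finite) ∧
    ((∀ l, α l ≠ 0 ∧ |α l| ≠ 1) → L1 n m + L2 k m + 1 ≤ M →
      {t : ℂ | IsRootOfUnity t ∧ ¬ NoAtypical
        (algebraMap (Algebra.adjoin ℤ (Γ : Set ℂ)) ℂ) K m (scaledImage t G A B R c)}.Finite) ∧
    ∀ (r : ℕ) (φ : Fin r → Polynomial ℤ) (g : Polynomial ℤ), IrreducibleComposites φ g →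
      (∀ l, Wandering φ (α l)) → L1 n m + L2 k m + 1 ≤ M →
      {t : ℂ | InBackwardOrbit φ g t ∧ ¬ NoAtypical
        (algebraMap (Algebra.adjoin ℤ (Γ : Set ℂ)) ℂ) K m (scaledImage t G A B R c)}.Finite := by
  refine ⟨fun hinj d hM => ?_, fun h0 hdist hM => ?_, fun hne hM => ?_,
    fun r φ g hφ hα hM => ?_⟩
  · refine Run7.h383.MO.familyE K κ N n k m M T G hG A B δ hA hB R hR hT c α hind
      hpos Γ hΓ {t | DegreeAtMost d t} ?_ (by omega)
      fun D => Pool.Agent.Y152.BD.finite_badD D d (by omega) α hinj
    rintro t ⟨F, hF0, -, hFt⟩
    exact ⟨F, hF0, hFt⟩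
  · exact Run7.h383.MO.familyE K κ N n k m M T G hG A B δ hA hB R hR hT c α hind
      hpos Γ hΓ {t | IsRadical t} (fun t ht => Pool.Agent.Y152.RP.alg_of_rad ht) (by omega)
      fun D => Pool.Agent.Y152.RP.arithMain D _ M (by omega) α h0 hdist
  · refine Run7.h383.MO.familyE K κ N n k m M T G hG A B δ hA hB R hR hT c α hind
      hpos Γ hΓ {t | IsRootOfUnity t} ?_ hM
      fun D => Pool.Agent.Y152.RP.unityMain hM α (fun l => (hne l).1) (fun l => (hne l).2) D
    rintro t ⟨N, hN, ht⟩
    exact Pool.Agent.Y152.RP.alg_of_rad ⟨N, hN, 1, by rw [ht, Rat.cast_one]⟩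
  · exact Run7.h383.MO.familyE K κ N n k m M T G hG A B δ hA hB R hR hT c α hind
      hpos Γ hΓ {t | InBackwardOrbit φ g t}
      (fun t ht => Pool.Agent.V1138.BO.alg_of_backward φ g hφ.1 t ht) hM
      fun D => Pool.Agent.V1138.BO.finite_badB D hM α φ g hφ.2 hφ.1 hα

end Pool.Agent.Results.MP_a325a5_ag.FewMembersAlgebraicParameters
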