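import Pool.Agent.Run7.h383.MO.One

/-!
# MP_a325a5_ag: Zilber-Pink in the mixed Shimura varieties `Y_1 × … × Y_n × G_m^k` for all but finitely
many members of one-parameter families with parameters in orbits of rational functions, or in the
images of finitely generated multiplicative groups

The Shimura variety `Y(1)^n` is identified with `ℂ^n` by the elliptic modular function
`jj = j = E₄³ / Δ`. The ambient variety is `Y(1)^n × G_m^k`, with coordinates indexed by
`Fin n ⊕ Fin k`, or more generally a product of modular curves of any levels (finite over `Y(1)^n`)
and a torus; for `n = 0` it is a torus, for `k = 0` a pure Shimura variety.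

**Families** (as in the starting files `DivisionGroupParameters` and
`MP_a325a5_ag.FinitelyGeneratedFields`). Let `K ⊂ ℂ` be a countable field. We consider algebraic families
`X_t` of subsets of `Y(1)^n × G_m^k` with one parameter `t`, given by
* a family `B_t ⊆ P^N` of projective algebraic sets, defined by forms `G` with coefficients in
  `K[t]`,
* quotients `f_i = A_i / B_i` of forms of the same degree `d_i` with coefficients in `K[t]`, one for
  every coordinate,
* functions `s_i` integral over `K[j]`, `R_i (s_i, j) = 0` with `R_i` monic in the first variable
  (level one: `R_i = S - J`, `s_i = j`; in general modular functions of any level without poles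
  in the upper half plane), and polynomials `c_i ∈ K[t]`;
`X_t` (`scaledImage`) is the set of all `(x, u)` such that for some `y ∈ B_t` and some `s` we have
`R_i (s_i, x_i) = 0`, `c_i (t) s_i = A_i (y) / B_i (y)` for the modular coordinates, and
`c_j (t) u_j = A_j (y) / B_j (y)` for the torus coordinates.

Let `D_1, …, D_M` be finite sets of complex numbers algebraic over `K`. The family degenerates at
the elements of the `D_l` in the following sense: for all `α` in `D_l`
* no point of `B_α` lies on `m + 1` of the divisors of the `f_i` (at `t = α`), and
* the `c_i` have zeros at `α`, of orders `e_i (α) > 0`, and these orders are independent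
  (`IndependentOrders`): for the modular coordinates `q e_i (α) e_j (α) e_i (α') e_j (α')` is not a
  square for `α` in `D_l` and `α'` in `D_l'`, `l ≠ l'`, `i ≠ j`, `1 ≤ q ≤ T^8`, where `T` bounds the
  degrees of the `R_i` (`T = 1` for level one), and for the torus coordinates the vectors
  `(e_j (α_l))_j` are linearly independent if `α_l` is in `D_l` for `k` of the `l`.

**Parameters.** Let `φ_i = P_i / Q_i` (`i = 1, …, r`) be rational functions over `K` (`Maps`), which
act on the projective line. For a word `w = i_1 … i_m` the number `t` is the value of
`φ_{i_1} ∘ … ∘ φ_{i_m}` at `s` (`Value`); the intermediate values may be infinite.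

**Theorem.** Let `L = n (n - 1) / 2 + k 2^k`. Say that a set `I` of indices `l` is large if it has at
least `M - L` elements (every nonempty set of indices is large if `M = L + 1`). A member `X_t` of the
family is called good if it has no atypical intersection with the products `Z × C`, `Z` a special
subvariety of `Y(1)^n` and `C` a torsion coset (`NoAtypical`).

1. (Orbits of semigroups.) Suppose that, for some `m₀`, every composite `ψ` of `m₀` of the functions
   `φ_i` and every large set `I`, the elements of the `D_l`, `l ∈ I`, have altogether at least three
   finite preimages under `ψ`. Then for every `t₀` algebraic over `K` all but finitely many of the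
   `X_t` with `t` in the forward orbit of `t₀`
   under the semigroup generated by the `φ_i` are good. More: for every finitely generated field `E`
   of numbers algebraic over `K`, all but finitely many of the `X_t` are good for all the values `t`
   at the numbers `s ∈ E` of all the composites of at least `m₀` of the functions `φ_i`.
2. (Iteration of one function.) For one rational function `φ = P / Q` of degree at least two, `P` and
   `Q` coprime, the condition in 1. holds for some `m₀` if in every large set `I` there is an `l` and
   an element of `D_l` with infinite backward orbit. (At most two numbers have finite backward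
   orbits.) So for every such `φ` and every `t₀` all but finitely many of the members with parameter
   in the orbit `t₀, φ(t₀), φ(φ(t₀)), …` are good, if the family has `L + 1` degenerate members,
   not at exceptional points of `φ`.
3. (Images of finitely generated groups.) Let `ψ` be a composite of functions `φ_i` under which the
   elements of the `D_l` have finitely many preimages, and suppose that for every large `I` some
   element of some `D_l`, `l ∈ I`, has a preimage different from `0`. Then for every finitely
   generated group `U` of nonzero numbers algebraic over `K` the member with parameter `ψ (u)` is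
   good for all but finitely many `u ∈ U`. For instance `t = a u^m + b`, or (for
   `ψ = (X - c / X) / d`) the values of binary linear recurrences such as the Fibonacci numbers.

Good means: every irreducible subset of `X_t ∩ (Z × C)`, closed in `ℂ^n × (ℂ^×)^k`, has dimension at
most `dim Z + dim C + m - (n + k)`, and the same bound holds for the transcendence degrees of the
points of `X_t ∩ (Z × C)` over `K`. The constant coordinates of `Z` can be special points or integral
over the ring generated by any given finite set `Γ` of numbers algebraic over `K`, and `C` can be any
coset of an algebraic subgroup by a point `η` such that the `η_j` and `1 / η_j` are integral over this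
ring.

For the elements of a finitely generated field `L + 3` degenerate members are needed in the starting
file `MP_a325a5_ag.FinitelyGeneratedFields`; for orbits, and for the images of finitely generated groups,
`L + 1` suffice. (The theorem and the hand-in `MixedOrbits` of a previous run are mentioned in the
starting files `Pool.Agent.R424.MX`, which contain the theorem `pulled` on pull-backs of
families by rational functions; the part on orbits, with the proof below, is new in this file.)

**Proof.** The pull-back of the family by a rational function `ψ` is a family of the same kind. It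
degenerates at the preimages of the elements of the `D_l`; the orders are multiplied by the
ramification indices, and independence is preserved. By the theorem on unit equations in finitely
generated rings only finitely many members of the pull-back with parameter in a finitely generated
field are not good, if the preimages of the `D_l`, `l ∈ I`, have at least three elements. All but
finitely many elements `t` of the orbit are of the form `ψ(s)` with a composite `ψ` of `m₀` functions.
If a point has infinite backward orbit under a rational function of degree at least two, then the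
numbers of its preimages under the iterates are unbounded, since only finitely many points have only
one preimage (they are the images of zeros of the Wronskian of `P` and `Q`, or of `∞`).
-/

set_option autoImplicit false

namespace Pool.Agent.Results.MP_a325a5_ag.MixedOrbits

open MvPolynomial
open Pool.Agent.Y152.RP.FamM (SpecialVariety NoAtypical InGeneralPosition scaledImage)
open Pool.Agent.R424.MX (order IndependentOrders)
open Run7.h383.MO (Maps Value)

/-- One-parameter families which degenerate at sufficiently many algebraic values of the parameter:
all but finitely many of the members with parameters in an orbit under a semigroup of rational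
functions, in an orbit of a rational function of degree at least two, or in the image of a finitely
generated multiplicative group have no atypical intersection. -/
theorem result (K : Subfield ℂ) [Countable K] (κ : Type) [Finite κ] (N n k m M T : ℕ)
    (G : κ → MvPolynomial (Fin (N + 1)) (Polynomial K)) (hG : ∀ a, ∃ e, (G a).IsHomogeneous e)
    (A B : Fin n ⊕ Fin k → MvPolynomial (Fin (N + 1)) (Polynomial K)) (δ : Fin n ⊕ Fin k → ℕ)
    (hA : ∀ i, (A i).IsHomogeneous (δ i)) (hB : ∀ i, (B i).IsHomogeneous (δ i))
    (R : Fin n → Polynomial (Polynomial K)) (hR : ∀ i, (R i).Monic)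
    (hT : ∀ i u w, ((R i).coeff u).coeff w ≠ 0 → u ≤ T ∧ w ≤ T)
    (c : Fin n ⊕ Fin k → Polynomial K) (D : Fin M → Finset ℂ)
    (hD : ∀ l, ∀ α ∈ D l, IsAlgebraic K α)
    (hind : IndependentOrders T c D) (hpos : ∀ l, ∀ α ∈ D l, InGeneralPosition α m G A B)
    (Γ : Finset ℂ) (hΓ : ∀ γ ∈ Γ, IsAlgebraic K γ) :
    (∀ (r : ℕ) (Φ : Maps K r) (m₀ : ℕ),
      (∀ w : List (Fin r), w.length = m₀ → ∀ I : Finset (Fin M),
        M ≤ I.card + (n.choose 2 + k * 2 ^ k) →
        3 ≤ {s : ℂ | ∃ l ∈ I, ∃ α ∈ D l, Value Φ w s α}.ncard) →
      (∀ t₀ : ℂ, IsAlgebraic K t₀ → {t : ℂ | (∃ w, Value Φ w t₀ t) ∧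
        ¬ NoAtypical (algebraMap (Algebra.adjoin ℤ (Γ : Set ℂ)) ℂ) K m
          (scaledImage t G A B R c)}.Finite) ∧
      ∀ F : Finset ℂ, (∀ z ∈ F, IsAlgebraic K z) →
        {t : ℂ | (∃ s ∈ Subfield.closure (F : Set ℂ), ∃ w : List (Fin r), m₀ ≤ w.length ∧
          Value Φ w s t) ∧
          ¬ NoAtypical (algebraMap (Algebra.adjoin ℤ (Γ : Set ℂ)) ℂ) K m
            (scaledImage t G A B R c)}.Finite) ∧
    (∀ Φ : Maps K 1, IsCoprime (Φ.P 0) (Φ.Q 0) → 2 ≤ Φ.e 0 →
      ((Φ.P 0).natDegree = Φ.e 0 ∨ (Φ.Q 0).natDegree = Φ.e 0) →
      (∀ I : Finset (Fin M), M ≤ I.card + (n.choose 2 + k * 2 ^ k) →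
        ∃ l ∈ I, ∃ α ∈ D l, {s : ℂ | ∃ w, Value Φ w s α}.Infinite) →
      (∀ t₀ : ℂ, IsAlgebraic K t₀ → {t : ℂ | (∃ w, Value Φ w t₀ t) ∧
        ¬ NoAtypical (algebraMap (Algebra.adjoin ℤ (Γ : Set ℂ)) ℂ) K m
          (scaledImage t G A B R c)}.Finite) ∧
      ∃ m₀ : ℕ, ∀ F : Finset ℂ, (∀ z ∈ F, IsAlgebraic K z) →
        {t : ℂ | (∃ s ∈ Subfield.closure (F : Set ℂ), ∃ w : List (Fin 1), m₀ ≤ w.length ∧
          Value Φ w s t) ∧
          ¬ NoAtypical (algebraMap (Algebra.adjoin ℤ (Γ : Set ℂ)) ℂ) K m
            (scaledImage t G A B R c)}.Finite) ∧
    ∀ (r : ℕ) (Φ : Maps K r) (w : List (Fin r)),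
      {s : ℂ | ∃ l, ∃ α ∈ D l, Value Φ w s α}.Finite →
      (∀ I : Finset (Fin M), M ≤ I.card + (n.choose 2 + k * 2 ^ k) →
        ∃ l ∈ I, ∃ α ∈ D l, ∃ s, s ≠ 0 ∧ Value Φ w s α) →
      ∀ U : Finset ℂˣ, (∀ u ∈ U, IsAlgebraic K (u : ℂ)) →
        {u : ℂˣ | u ∈ Subgroup.closure (U : Set ℂˣ) ∧ ∃ t : ℂ, Value Φ w (u : ℂ) t ∧
          ¬ NoAtypical (algebraMap (Algebra.adjoin ℤ (Γ : Set ℂ)) ℂ) K m
            (scaledImage t G A B R c)}.Finite := by
  refine Run7.h383.MO.conclusions (K := K) (L := n.choose 2 + k * 2 ^ k) (D := D)
    (Bad := fun t => ¬ NoAtypical (algebraMap (Algebra.adjoin ℤ (Γ : Set ℂ)) ℂ) K m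
      (scaledImage t G A B R c)) ?_
  intro F hF P Q hPQ
  obtain ⟨h1, -, h3⟩ := Pool.Agent.R424.MX.pulled K κ N n k m M T G hG A B δ hA hB R hR hT c D hD
    hind hpos Γ hΓ F hF P Q hPQ
  exact ⟨h1, h3⟩

end Pool.Agent.Results.MP_a325a5_ag.MixedOrbits
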